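import Pool.Agent.H78.Cappitt

namespace Pool.Agent.Results.MP_b1a016_al.Periodic

open Pool.Agent.H78.Cappitt

/-- Every non-abelian pro-`p` Cappitt group is periodic. -/
theorem result (p : ℕ) (hp : p.Prime) (G : Type*) [Group G] [TopologicalSpace G] [IsTopologicalGroup G]
    [CompactSpace G] [TotallyDisconnectedSpace G] (hG : IsProP p G) (hS : St G ≠ ⊤)
    (hna : ¬ ∀ a b : G, a * b = b * a) (z : G) : IsOfFinOrder z :=
  periodic hp hG hS hna z

end Pool.Agent.Results.MP_b1a016_al.Periodic
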